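import Mathlib
import Pool.Agent.H2.FC.Ext

/-!
EXTP: extension of a proper edge colouring, where at every vertex `v` the labels in `K v` are not used. Compare `FC/Ext.lean`.
-/

set_option autoImplicit false

namespace Pool.Agent.H2.FC

open Finset Classical
open Pool.Agent.H71.DN Pool.Agent.H2.NE

theorem ext1p {V : Type} [Fintype V] (H H' : SimpleGraph V) (t : ℕ) (mm : ℕ → V → V)
    (K : V → Finset ℕ) (hK : ∀ v, ∀ ℓ ∈ K v, mm ℓ v = v)
    (hc : Col H t mm) (a b : V) (hab : a ≠ b) (hn : ¬ H.Adj a b)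
    (hdeg : dg H a + dg H b + ((K a).card + (K b).card) < t)
    (hH' : ∀ x y, H'.Adj x y ↔ H.Adj x y ∨ (x = a ∧ y = b) ∨ (x = b ∧ y = a)) :
    ∃ mm' : ℕ → V → V, Col H' t mm' ∧ ∀ v, ∀ ℓ ∈ K v, mm' ℓ v = v := by
  obtain ⟨l, hl, hla, hlb, hKa, hKb⟩ :
      ∃ l < t, mm l a = a ∧ mm l b = b ∧ l ∉ K a ∧ l ∉ K b := by
    by_contra hcon
    push Not at hcon
    have hsub : range t ⊆ (((range t).filter fun ℓ => mm ℓ a ≠ a) ∪
        ((range t).filter fun ℓ => mm ℓ b ≠ b)) ∪ (K a ∪ K b) := by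
      intro ℓ hℓ
      rw [mem_union, mem_union, mem_union, mem_filter, mem_filter]
      by_cases h1 : mm ℓ a = a
      · by_cases h2 : mm ℓ b = b
        · by_cases h3 : ℓ ∈ K a
          · exact Or.inr (Or.inl h3)
          · exact Or.inr (Or.inr (hcon ℓ (mem_range.1 hℓ) h1 h2 h3))
        · exact Or.inl (Or.inr ⟨hℓ, h2⟩)
      · exact Or.inl (Or.inl ⟨hℓ, h1⟩)
    have h1 := (card_le_card hsub).trans (card_union_le _ _)
    have h4 := card_union_le ((range t).filter fun ℓ => mm ℓ a ≠ a)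
        ((range t).filter fun ℓ => mm ℓ b ≠ b)
    have h5 := card_union_le (K a) (K b)
    have h2 := Ext_used H t mm hc a
    have h3 := Ext_used H t mm hc b
    rw [card_range] at h1
    omega
  have hinv := hc.inv l hl
  obtain ⟨μ, hμ⟩ : ∃ μ : V → V, μ = fun v => Equiv.swap a b (mm l v) := ⟨_, rfl⟩
  have hμa : μ a = b := by rw [hμ]; simp only; rw [hla, Equiv.swap_apply_left]
  have hμb : μ b = a := by rw [hμ]; simp only; rw [hlb, Equiv.swap_apply_right]
  have hne : ∀ v, v ≠ a → v ≠ b → mm l v ≠ a ∧ mm l v ≠ b := by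
    intro v h1 h2
    constructor
    · intro h
      apply h1
      rw [← hinv v, h, hla]
    · intro h
      apply h2
      rw [← hinv v, h, hlb]
  have hμo : ∀ v, v ≠ a → v ≠ b → μ v = mm l v := by
    intro v h1 h2
    rw [hμ]
    simp only
    obtain ⟨h3, h4⟩ := hne v h1 h2
    rw [Equiv.swap_apply_of_ne_of_ne h3 h4]
  obtain ⟨mm', hm⟩ : ∃ mm' : ℕ → V → V, mm' = fun ℓ => if ℓ = l then μ else mm ℓ := ⟨_, rfl⟩
  have hm1 : mm' l = μ := by rw [hm]; simp
  have hm2 : ∀ ℓ, ℓ ≠ l → mm' ℓ = mm ℓ := fun ℓ h => by rw [hm]; simp [h]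
  have hnb : ∀ j < t, mm j a ≠ b := by
    intro j hj h
    apply hn
    have h1 := hc.adj j hj a (by rw [h]; exact hab.symm)
    rwa [h] at h1
  have hna : ∀ j < t, mm j b ≠ a := by
    intro j hj h
    apply hn
    have h1 := hc.adj j hj b (by rw [h]; exact hab)
    rw [h] at h1
    exact h1.symm
  refine ⟨mm', ⟨?_, ?_, ?_, ?_⟩, ?_⟩
  · intro ℓ hℓ
    by_cases h : ℓ = l
    · rw [h, hm1]
      intro v
      by_cases h1 : v = a
      · rw [h1, hμa, hμb]
      · by_cases h2 : v = b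
        · rw [h2, hμb, hμa]
        · rw [hμo v h1 h2, hμo _ (hne v h1 h2).1 (hne v h1 h2).2, hinv v]
    · rw [hm2 ℓ h]
      exact hc.inv ℓ hℓ
  · intro ℓ hℓ v hv
    rw [hH']
    by_cases h : ℓ = l
    · rw [h, hm1] at hv ⊢
      by_cases h1 : v = a
      · exact Or.inr (Or.inl ⟨h1, by rw [h1, hμa]⟩)
      · by_cases h2 : v = b
        · exact Or.inr (Or.inr ⟨h2, by rw [h2, hμb]⟩)
        · rw [hμo v h1 h2] at hv ⊢
          exact Or.inl (hc.adj l hl v hv)
    · rw [hm2 ℓ h] at hv ⊢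
      exact Or.inl (hc.adj ℓ hℓ v hv)
  · intro i hi j hj hij v hv
    by_cases h : i = l
    · have hjl : j ≠ l := fun h2 => hij (h.trans h2.symm)
      rw [h, hm1] at hv
      rw [h, hm1, hm2 j hjl]
      by_cases h1 : v = a
      · rw [h1, hμa]
        exact (hnb j hj).symm
      · by_cases h2 : v = b
        · rw [h2, hμb]
          exact (hna j hj).symm
        · rw [hμo v h1 h2] at hv ⊢
          exact hc.dis l hl j hj hjl.symm v hv
    · rw [hm2 i h] at hv ⊢
      by_cases h3 : j = l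
      · rw [h3, hm1]
        by_cases h1 : v = a
        · rw [h1, hμa]
          exact hnb i hi
        · by_cases h2 : v = b
          · rw [h2, hμb]
            exact hna i hi
          · rw [hμo v h1 h2]
            exact hc.dis i hi l hl h v hv
      · rw [hm2 j h3]
        exact hc.dis i hi j hj hij v hv
  · intro x y hxy
    rcases (hH' x y).1 hxy with h | ⟨rfl, rfl⟩ | ⟨rfl, rfl⟩
    · obtain ⟨ℓ, hℓ, h1⟩ := hc.cov x y h
      refine ⟨ℓ, hℓ, ?_⟩
      by_cases h2 : ℓ = l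
      · rw [h2] at h1
        rw [h2, hm1]
        have hxa : x ≠ a := by
          intro h3
          rw [h3, hla] at h1
          rw [h3, ← h1] at h
          exact H.irrefl h
        have hxb : x ≠ b := by
          intro h3
          rw [h3, hlb] at h1
          rw [h3, ← h1] at h
          exact H.irrefl h
        rw [hμo x hxa hxb, h1]
      · rw [hm2 ℓ h2, h1]
    · exact ⟨l, hl, by rw [hm1, hμa]⟩
    · exact ⟨l, hl, by rw [hm1, hμb]⟩
  · intro v ℓ hℓ
    by_cases h : ℓ = l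
    · have h1 : v ≠ a := by
        rintro rfl
        exact hKa (h ▸ hℓ)
      have h2 : v ≠ b := by
        rintro rfl
        exact hKb (h ▸ hℓ)
      rw [h, hm1, hμo v h1 h2, ← h]
      exact hK v ℓ hℓ
    · rw [hm2 ℓ h]
      exact hK v ℓ hℓ

theorem extp {V : Type} [Fintype V] (H F1 : SimpleGraph V) (hle : H ≤ F1) (t : ℕ)
    (mm : ℕ → V → V) (K : V → Finset ℕ) (hK : ∀ v, ∀ ℓ ∈ K v, mm ℓ v = v) (hc : Col H t mm)
    (hd : ∀ a b, F1.Adj a b → ¬ H.Adj a b →
      dg F1 a + dg F1 b + ((K a).card + (K b).card) ≤ t) :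
    ∃ mm' : ℕ → V → V, Col F1 t mm' ∧ ∀ v, ∀ ℓ ∈ K v, mm' ℓ v = v := by
  obtain ⟨n, hn⟩ : ∃ n : ℕ, (univ.filter fun p : V × V => F1.Adj p.1 p.2 ∧ ¬ H.Adj p.1 p.2).card = n :=
    ⟨_, rfl⟩
  induction n using Nat.strong_induction_on generalizing H mm with
  | _ n ih =>
    by_cases hex : ∃ a b, F1.Adj a b ∧ ¬ H.Adj a b
    · obtain ⟨a, b, h1, h2⟩ := hex
      have hlt : ∀ x y, F1.Adj x y → ¬ H.Adj x y → dg H x < dg F1 x := by
        intro x y h3 h4
        unfold dg
        apply card_lt_card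
        rw [ssubset_iff_of_subset]
        · exact ⟨y, mem_filter.2 ⟨mem_univ _, h3⟩, fun h => h4 (mem_filter.1 h).2⟩
        · intro u hu
          exact mem_filter.2 ⟨mem_univ _, hle (mem_filter.1 hu).2⟩
      have ha := hlt a b h1 h2
      have hb := hlt b a h1.symm (fun h => h2 h.symm)
      have hdab := hd a b h1 h2
      obtain ⟨H', hH'⟩ : ∃ H' : SimpleGraph V, ∀ x y, H'.Adj x y ↔
          H.Adj x y ∨ (x = a ∧ y = b) ∨ (x = b ∧ y = a) := by
        refine ⟨⟨fun x y => H.Adj x y ∨ (x = a ∧ y = b) ∨ (x = b ∧ y = a), ⟨?_⟩, ⟨?_⟩⟩, fun x y => Iff.rfl⟩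
        · rintro x y (h | h | h)
          · exact Or.inl h.symm
          · exact Or.inr (Or.inr ⟨h.2, h.1⟩)
          · exact Or.inr (Or.inl ⟨h.2, h.1⟩)
        · rintro x (h | h | h)
          · exact H.irrefl h
          · exact h1.ne (h.1.symm.trans h.2)
          · exact h1.ne (h.2.symm.trans h.1)
      obtain ⟨mm', hc', hK'⟩ := ext1p H H' t mm K hK hc a b h1.ne h2 (by omega) hH'
      have hle' : H' ≤ F1 := by
        intro x y h
        rcases (hH' x y).1 h with h | h | h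
        · exact hle h
        · rw [h.1, h.2]
          exact h1
        · rw [h.1, h.2]
          exact h1.symm
      refine ih _ ?_ H' hle' mm' hK' hc' (fun x y h3 h4 => hd x y h3 (fun h5 => h4 ((hH' x y).2 (Or.inl h5)))) rfl
      rw [← hn]
      apply card_lt_card
      rw [ssubset_iff_of_subset]
      · refine ⟨(a, b), mem_filter.2 ⟨mem_univ _, h1, h2⟩, fun h => ?_⟩
        exact (mem_filter.1 h).2.2 ((hH' a b).2 (Or.inr (Or.inl ⟨rfl, rfl⟩)))
      · intro p hp
        have h3 := (mem_filter.1 hp).2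
        exact mem_filter.2 ⟨mem_univ _, h3.1, fun h4 => h3.2 ((hH' _ _).2 (Or.inl h4))⟩
    · push Not at hex
      have : H = F1 := le_antisymm hle fun x y h => hex x y h
      rw [← this]
      exact ⟨mm, hc, hK⟩

end Pool.Agent.H2.FC
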