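import Mathlib
import Pool.Agent.H2.NE.Main

/-!
HAL1P: the edges from a new vertex `w` to the set `N` are coloured with exactly the labels that are free at `w` and not in `K w`. Compare `FC/Hal1.lean`.
-/

set_option autoImplicit false

namespace Pool.Agent.H2.FC

open Finset Classical
open Pool.Agent.H71.DN Pool.Agent.H2.NE

private theorem hal1p_deg {V : Type} [Fintype V] {H : SimpleGraph V} {t : ℕ} {mm : ℕ → V → V}
    (hc : Col H t mm) (v : V) : ((range t).filter fun ℓ => mm ℓ v ≠ v).card = dg H v := by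
  unfold dg
  refine Finset.card_bij (fun ℓ _ => mm ℓ v) ?_ ?_ ?_
  · intro ℓ hℓ
    rw [mem_filter, mem_range] at hℓ
    rw [mem_filter]
    exact ⟨mem_univ _, hc.adj ℓ hℓ.1 v hℓ.2⟩
  · intro i hi j hj hij
    rw [mem_filter, mem_range] at hi hj
    by_contra hne
    exact hc.dis i hi.1 j hj.1 hne v hi.2 hij
  · intro u hu
    rw [mem_filter] at hu
    obtain ⟨ℓ, hℓ, h⟩ := hc.cov v u hu.2
    refine ⟨ℓ, ?_, h⟩
    rw [mem_filter, mem_range]
    refine ⟨hℓ, ?_⟩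
    rw [h]
    exact hu.2.ne'

private theorem hal1p_lab {V : Type} [Fintype V] (H : SimpleGraph V) (w : V) (N : Finset V)
    (t r : ℕ) (mm : ℕ → V → V) (Kw : Finset ℕ) (hKw : ∀ ℓ ∈ Kw, ℓ < t ∧ mm ℓ w = w)
    (hc : Col H t mm)
    (hdeg : dg H w + Kw.card + N.card = t) (hy : ∀ y ∈ N, dg H y ≤ r)
    (hl : ∀ ℓ < t, (N.filter fun y => mm ℓ y ≠ y).card ≤ r) (hr : 2 * r ≤ N.card) :
    ∃ b : V → ℕ, (∀ y ∈ N, b y < t ∧ mm (b y) w = w ∧ mm (b y) y = y ∧ b y ∉ Kw) ∧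
      ∀ y ∈ N, ∀ z ∈ N, b y = b z → y = z := by
  obtain ⟨Fr, hFr⟩ : ∃ Fr, Fr = (range t).filter fun ℓ => mm ℓ w = w ∧ ℓ ∉ Kw := ⟨_, rfl⟩
  have hFrc : Fr.card = N.card := by
    have h1 := Finset.card_filter_add_card_filter_not (s := range t) (fun ℓ => mm ℓ w = w)
    have h2 := hal1p_deg hc w
    rw [card_range] at h1
    have h3 : ((range t).filter fun ℓ => ¬ mm ℓ w = w).card = dg H w := h2
    have h4 : Fr = ((range t).filter fun ℓ => mm ℓ w = w) \ Kw := by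
      rw [hFr]
      ext ℓ
      simp only [mem_filter, mem_sdiff, and_assoc]
    have h5 : Kw ⊆ (range t).filter fun ℓ => mm ℓ w = w := fun ℓ hℓ =>
      mem_filter.2 ⟨mem_range.2 (hKw ℓ hℓ).1, (hKw ℓ hℓ).2⟩
    have h6 := card_sdiff_add_card_eq_card h5
    rw [← h4] at h6
    omega
  obtain ⟨A, hA⟩ : ∃ A : N → Finset ℕ, ∀ y, A y = Fr.filter fun ℓ => mm ℓ (y : V) = y :=
    ⟨_, fun _ => rfl⟩
  have hAc : ∀ y, N.card ≤ (A y).card + r := by
    intro y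
    have h1 := Finset.card_filter_add_card_filter_not (s := Fr) (fun ℓ => mm ℓ (y : V) = y)
    rw [← hA, hFrc] at h1
    have h2 : (Fr.filter fun ℓ => ¬ mm ℓ (y : V) = y) ⊆
        (range t).filter fun ℓ => mm ℓ (y : V) ≠ y := by
      intro ℓ hℓ
      rw [mem_filter, hFr, mem_filter] at hℓ
      rw [mem_filter]
      exact ⟨hℓ.1.1, hℓ.2⟩
    have h3 := card_le_card h2
    rw [hal1p_deg hc] at h3
    have h4 := hy y y.2
    omega
  have hall : ∀ S : Finset N, S.card ≤ (S.biUnion A).card := by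
    intro S
    rcases S.eq_empty_or_nonempty with rfl | ⟨y, hyS⟩
    · simp
    by_cases hS : S.card + r ≤ N.card
    · have h1 : A y ⊆ S.biUnion A := subset_biUnion_of_mem A hyS
      have h2 := card_le_card h1
      have h3 := hAc y
      omega
    · have h1 : Fr ⊆ S.biUnion A := by
        intro ℓ hℓ
        rw [mem_biUnion]
        by_contra hcon
        push Not at hcon
        have hℓ' := hℓ
        rw [hFr, mem_filter, mem_range] at hℓ'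
        have h2 : S.map (Function.Embedding.subtype _) ⊆ N.filter fun y => mm ℓ y ≠ y := by
          intro z hz
          rw [mem_map] at hz
          obtain ⟨z', hz', rfl⟩ := hz
          rw [mem_filter]
          refine ⟨z'.2, fun h => hcon z' hz' ?_⟩
          rw [hA, mem_filter]
          exact ⟨hℓ, h⟩
        have h3 := card_le_card h2
        rw [card_map] at h3
        have h4 := hl ℓ hℓ'.1
        omega
      have h2 := card_le_card h1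
      have h3 : S.card ≤ Fintype.card N := Finset.card_le_univ S
      rw [Fintype.card_coe] at h3
      omega
  obtain ⟨β, hβi, hβ⟩ := (Finset.all_card_le_biUnion_card_iff_exists_injective A).1 hall
  refine ⟨fun v => if h : v ∈ N then β ⟨v, h⟩ else 0, ?_, ?_⟩
  · intro y hyN
    beta_reduce
    rw [dif_pos hyN]
    have h1 := hβ ⟨y, hyN⟩
    rw [hA, mem_filter, hFr, mem_filter, mem_range] at h1
    exact ⟨h1.1.1, h1.1.2.1, h1.2, h1.1.2.2⟩
  · intro y hyN z hzN h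
    beta_reduce at h
    rw [dif_pos hyN, dif_pos hzN] at h
    exact congrArg Subtype.val (hβi h)

theorem hal1p {V : Type} [Fintype V] (H H' : SimpleGraph V) (w : V) (N : Finset V) (t r : ℕ)
    (mm : ℕ → V → V) (K : V → Finset ℕ) (hK : ∀ v, ∀ ℓ ∈ K v, mm ℓ v = v)
    (hKt : ∀ ℓ ∈ K w, ℓ < t) (hKN : ∀ y ∈ N, K y = ∅)
    (hc : Col H t mm) (hw : w ∉ N) (hN : ∀ y ∈ N, ¬ H.Adj w y)
    (hdeg : dg H w + (K w).card + N.card = t) (hy : ∀ y ∈ N, dg H y ≤ r)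
    (hl : ∀ ℓ < t, (N.filter fun y => mm ℓ y ≠ y).card ≤ r) (hr : 2 * r ≤ N.card)
    (hH' : ∀ a b, H'.Adj a b ↔ H.Adj a b ∨ (a = w ∧ b ∈ N) ∨ (b = w ∧ a ∈ N)) :
    ∃ mm' : ℕ → V → V, Col H' t mm' ∧ ∀ v, ∀ ℓ ∈ K v, mm' ℓ v = v := by
  obtain ⟨b, hb, hbi⟩ := hal1p_lab H w N t r mm (K w) (fun ℓ hℓ => ⟨hKt ℓ hℓ, hK w ℓ hℓ⟩)
    hc hdeg hy hl hr
  obtain ⟨c, hc1, hc2⟩ : ∃ c : ℕ → V, (∀ y ∈ N, c (b y) = y) ∧
      ∀ ℓ, c ℓ ≠ w → c ℓ ∈ N ∧ b (c ℓ) = ℓ := by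
    refine ⟨fun ℓ => if h : ∃ y ∈ N, b y = ℓ then h.choose else w, ?_, ?_⟩
    · intro y hyN
      have h : ∃ z ∈ N, b z = b y := ⟨y, hyN, rfl⟩
      beta_reduce
      rw [dif_pos h]
      exact hbi _ h.choose_spec.1 _ hyN h.choose_spec.2
    · intro ℓ hℓ
      beta_reduce at hℓ ⊢
      by_cases h : ∃ y ∈ N, b y = ℓ
      · rw [dif_pos h]
        exact h.choose_spec
      · rw [dif_neg h] at hℓ
        exact absurd rfl hℓ
  have hne : ∀ y ∈ N, y ≠ w := fun y hy h => hw (h ▸ hy)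
  obtain ⟨mm', h1, h2, h3⟩ : ∃ mm' : ℕ → V → V, (∀ ℓ v, v ∈ N ∧ b v = ℓ → mm' ℓ v = w) ∧
      (∀ ℓ, c ℓ ≠ w → mm' ℓ w = c ℓ) ∧
      ∀ ℓ v, ¬ (v ∈ N ∧ b v = ℓ) → ¬ (v = w ∧ c ℓ ≠ w) → mm' ℓ v = mm ℓ v := by
    refine ⟨fun ℓ v => if v ∈ N ∧ b v = ℓ then w else if v = w ∧ c ℓ ≠ w then c ℓ else mm ℓ v,
      ?_, ?_, ?_⟩
    · intro ℓ v h
      beta_reduce
      rw [if_pos h]
    · intro ℓ h
      beta_reduce
      rw [if_neg (fun h' => hw h'.1), if_pos ⟨rfl, h⟩]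
    · intro ℓ v h h'
      beta_reduce
      rw [if_neg h, if_neg h']
  -- the three cases
  have tri : ∀ ℓ v, (v ∈ N ∧ b v = ℓ) ∨ (v = w ∧ c ℓ ≠ w) ∨
      (¬ (v ∈ N ∧ b v = ℓ) ∧ ¬ (v = w ∧ c ℓ ≠ w)) := by
    intro ℓ v
    tauto
  have hnadj : ∀ y ∈ N, ∀ ℓ < t, mm ℓ y ≠ w := by
    intro y hyN ℓ hℓ h
    have h4 := hc.adj ℓ hℓ y (by rw [h]; exact (hne y hyN).symm)
    rw [h] at h4
    exact hN y hyN h4.symm
  have hnadj' : ∀ y ∈ N, ∀ ℓ < t, mm ℓ w ≠ y := by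
    intro y hyN ℓ hℓ h
    have h4 := hc.adj ℓ hℓ w (by rw [h]; exact hne y hyN)
    rw [h] at h4
    exact hN y hyN h4
  refine ⟨mm', ⟨?_, ?_, ?_, ?_⟩, ?_⟩
  · -- inv
    intro ℓ hℓ v
    rcases tri ℓ v with h | h | h
    · rw [h1 ℓ v h]
      have h4 : c ℓ = v := by rw [← h.2]; exact hc1 v h.1
      rw [h2 ℓ (by rw [h4]; exact hne v h.1), h4]
    · rw [h.1, h2 ℓ h.2]
      exact h1 ℓ _ (hc2 ℓ h.2)
    · rw [h3 ℓ v h.1 h.2]
      have hi := hc.inv ℓ hℓ v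
      rw [h3 ℓ (mm ℓ v), hi]
      · rintro ⟨hu, hbu⟩
        have h5 := (hb _ hu).2.2.1
        rw [hbu, hi] at h5
        rw [← h5] at hu hbu
        exact h.1 ⟨hu, hbu⟩
      · rintro ⟨hu, hcu⟩
        obtain ⟨h6, h7⟩ := hc2 ℓ hcu
        have h5 := (hb _ h6).2.1
        rw [h7] at h5
        rw [hu, h5] at hi
        exact h.2 ⟨hi.symm, hcu⟩
  · -- adj
    intro ℓ hℓ v hv
    rw [hH']
    rcases tri ℓ v with h | h | h
    · rw [h1 ℓ v h]
      exact Or.inr (Or.inr ⟨rfl, h.1⟩)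
    · rw [h.1, h2 ℓ h.2]
      exact Or.inr (Or.inl ⟨rfl, (hc2 ℓ h.2).1⟩)
    · rw [h3 ℓ v h.1 h.2] at hv ⊢
      exact Or.inl (hc.adj ℓ hℓ v hv)
  · -- dis
    intro i hi j hj hij v hv
    rcases tri i v with h | h | h
    · rw [h1 i v h]
      rw [h3 j v (fun h' => hij (h.2.symm.trans h'.2)) (fun h' => hne v h.1 h'.1)]
      exact (hnadj v h.1 j hj).symm
    · rw [h.1, h2 i h.2]
      obtain ⟨h6, h7⟩ := hc2 i h.2
      by_cases hcj : c j = w
      · rw [h3 j w (fun h' => hw h'.1) (fun h' => h'.2 hcj)]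
        exact (hnadj' _ h6 j hj).symm
      · rw [h2 j hcj]
        intro h8
        apply hij
        rw [← h7, h8, (hc2 j hcj).2]
    · rw [h3 i v h.1 h.2] at hv ⊢
      rcases tri j v with h' | h' | h'
      · rw [h1 j v h']
        exact hnadj v h'.1 i hi
      · rw [h'.1, h2 j h'.2]
        exact hnadj' _ (hc2 j h'.2).1 i hi
      · rw [h3 j v h'.1 h'.2]
        exact hc.dis i hi j hj hij v hv
  · -- cov
    intro x y hxy
    rw [hH'] at hxy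
    rcases hxy with hxy | ⟨rfl, hyN⟩ | ⟨rfl, hxN⟩
    · obtain ⟨ℓ, hℓ, h⟩ := hc.cov x y hxy
      refine ⟨ℓ, hℓ, ?_⟩
      rw [h3 ℓ x, h]
      · rintro ⟨hx, hbx⟩
        have h5 := (hb _ hx).2.2.1
        rw [hbx, h] at h5
        exact hxy.ne h5.symm
      · rintro ⟨hx, hcx⟩
        obtain ⟨h6, h7⟩ := hc2 ℓ hcx
        have h5 := (hb _ h6).2.1
        rw [h7, ← hx, h] at h5
        exact hxy.ne h5.symm
    · refine ⟨b y, (hb y hyN).1, ?_⟩
      rw [h2 (b y) (by rw [hc1 y hyN]; exact hne y hyN), hc1 y hyN]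
    · exact ⟨b x, (hb x hxN).1, h1 _ _ ⟨hxN, rfl⟩⟩
  · -- the forbidden labels
    intro v ℓ hℓ
    rcases tri ℓ v with h | h | h
    · exact absurd hℓ (by rw [hKN v h.1]; exact Finset.notMem_empty _)
    · exfalso
      obtain ⟨h6, h7⟩ := hc2 ℓ h.2
      apply (hb _ h6).2.2.2
      rw [h7, ← h.1]
      exact hℓ
    · rw [h3 ℓ v h.1 h.2]
      exact hK v ℓ hℓ

end Pool.Agent.H2.FC
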