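import Mathlib
import Pool.Agent.H2.FC.Hal
import Pool.Agent.H2.FP.ExtP
import Pool.Agent.H2.FP.Hal1P

/-!
HALP: a proper edge colouring with `t` labels, where the vertices `w` of the small set `Lo` use exactly the labels outside `K w`. Compare `FC/Hal.lean`.
-/

set_option autoImplicit false

namespace Pool.Agent.H2.FC

open Finset Classical
open Pool.Agent.H71.DN Pool.Agent.H2.NE

theorem halGp_step {V : Type} [Fintype V] (F1 : SimpleGraph V) (Lo : Finset V) (t κ : ℕ)
    (K : V → Finset ℕ) (hK1 : ∀ w, ∀ ℓ ∈ K w, ℓ < t) (hK2 : ∀ v, v ∉ Lo → K v = ∅)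
    (hκ : ∀ w ∈ Lo, (K w).card = κ)
    (hw : ∀ w ∈ Lo, dg F1 w + κ = t) (ht : 3 * Lo.card + 2 * κ ≤ t) (S : Finset V) (w : V)
    (hwS : w ∉ S) (hS : insert w S ⊆ Lo)
    (hi : ∃ mm : ℕ → V → V, Col (halG F1 Lo S) t mm ∧ ∀ v, ∀ ℓ ∈ K v, mm ℓ v = v) :
    ∃ mm : ℕ → V → V, Col (halG F1 Lo (insert w S)) t mm ∧ ∀ v, ∀ ℓ ∈ K v, mm ℓ v = v := by
  obtain ⟨mm, hc, hK⟩ := hi
  have hwLo : w ∈ Lo := hS (Finset.mem_insert_self w S)
  have hSLo : S ⊆ Lo := fun x hx => hS (Finset.mem_insert_of_mem hx)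
  have hnb : ∀ y, y ∉ Lo → ∀ u, (halG F1 Lo S).Adj y u → u ∈ Lo := by
    rintro y hy u ⟨_, h | h | h⟩
    · exact absurd h.1 hy
    · exact absurd (hSLo h.1) hy
    · exact hSLo h.1
  have hdw : dg (halG F1 Lo S) w + (K w).card +
      (univ.filter fun y => F1.Adj w y ∧ y ∉ Lo).card = t := by
    have e1 : dg (halG F1 Lo S) w = ((univ.filter fun u => F1.Adj w u).filter fun u => u ∈ Lo).card := by
      unfold dg
      congr 1
      ext u
      rw [Finset.mem_filter, Finset.mem_filter, Finset.mem_filter]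
      constructor
      · rintro ⟨_, h1, h | h | h⟩
        · exact ⟨⟨Finset.mem_univ u, h1⟩, h.2⟩
        · exact absurd h.1 hwS
        · exact absurd hwLo h.2
      · rintro ⟨⟨_, h1⟩, h2⟩
        exact ⟨Finset.mem_univ u, h1, Or.inl ⟨hwLo, h2⟩⟩
    have e2 : (univ.filter fun y => F1.Adj w y ∧ y ∉ Lo) =
        ((univ.filter fun u => F1.Adj w u).filter fun u => ¬ u ∈ Lo) := by
      ext u
      simp only [Finset.mem_filter, Finset.mem_univ, true_and]
    have e3 := Finset.card_filter_add_card_filter_not (s := univ.filter fun u => F1.Adj w u)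
      (fun u => u ∈ Lo)
    have e4 := hw w hwLo
    have e5 := hκ w hwLo
    unfold dg at e4
    rw [e1, e2]
    omega
  have hdw2 : dg (halG F1 Lo S) w ≤ Lo.card := by
    unfold dg
    apply Finset.card_le_card
    intro u hu
    rw [Finset.mem_filter] at hu
    obtain ⟨_, _, h | h | h⟩ := hu
    · exact h.2
    · exact absurd h.1 hwS
    · exact absurd hwLo h.2
  have hκw := hκ w hwLo
  refine hal1p (halG F1 Lo S) (halG F1 Lo (insert w S)) w
    (univ.filter fun y => F1.Adj w y ∧ y ∉ Lo) t Lo.card mm K hK (hK1 w)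
    (fun y hy => hK2 y (Finset.mem_filter.1 hy).2.2) hc ?_ ?_ hdw ?_ ?_ ?_ ?_
  · intro h
    rw [Finset.mem_filter] at h
    exact h.2.2 hwLo
  · intro y hy hA
    rw [Finset.mem_filter] at hy
    exact hy.2.2 (by
      obtain ⟨_, h | h | h⟩ := hA
      · exact h.2
      · exact absurd h.1 hwS
      · exact hSLo h.1)
  · intro y hy
    rw [Finset.mem_filter] at hy
    unfold dg
    apply Finset.card_le_card
    intro u hu
    rw [Finset.mem_filter] at hu
    exact hnb y hy.2.2 u hu.2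
  · intro ℓ hℓ
    apply Finset.card_le_card_of_injOn (fun y => mm ℓ y)
    · intro y hy
      rw [Finset.mem_coe, Finset.mem_filter, Finset.mem_filter] at hy
      exact hnb y hy.1.2.2 _ (hc.adj ℓ hℓ y hy.2)
    · intro y _ y' _ h
      have h' : mm ℓ y = mm ℓ y' := h
      have h1 := hc.inv ℓ hℓ y
      have h2 := hc.inv ℓ hℓ y'
      rw [← h1, h', h2]
  · omega
  · intro a b
    simp only [halG, Finset.mem_filter, Finset.mem_univ, true_and, Finset.mem_insert]
    constructor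
    · rintro ⟨h0, h | h | h⟩
      · exact Or.inl ⟨h0, Or.inl h⟩
      · rcases h.1 with h1 | h1
        · right; left
          exact ⟨h1, by rw [← h1]; exact h0, h.2⟩
        · exact Or.inl ⟨h0, Or.inr (Or.inl ⟨h1, h.2⟩)⟩
      · rcases h.1 with h1 | h1
        · right; right
          exact ⟨h1, by rw [← h1]; exact h0.symm, h.2⟩
        · exact Or.inl ⟨h0, Or.inr (Or.inr ⟨h1, h.2⟩)⟩
    · rintro (⟨h0, h | h | h⟩ | ⟨h1, h2, h3⟩ | ⟨h1, h2, h3⟩)
      · exact ⟨h0, Or.inl h⟩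
      · exact ⟨h0, Or.inr (Or.inl ⟨Or.inr h.1, h.2⟩)⟩
      · exact ⟨h0, Or.inr (Or.inr ⟨Or.inr h.1, h.2⟩)⟩
      · rw [← h1] at h2
        exact ⟨h2, Or.inr (Or.inl ⟨Or.inl h1, h3⟩)⟩
      · rw [← h1] at h2
        exact ⟨h2.symm, Or.inr (Or.inr ⟨Or.inl h1, h3⟩)⟩

theorem halp {V : Type} [Fintype V] (F1 : SimpleGraph V) (Lo : Finset V) (t κ : ℕ)
    (K : V → Finset ℕ) (hK1 : ∀ w, ∀ ℓ ∈ K w, ℓ < t) (hK2 : ∀ v, v ∉ Lo → K v = ∅)
    (hκ : ∀ w ∈ Lo, (K w).card = κ)
    (hw : ∀ w ∈ Lo, dg F1 w + κ = t)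
    (hv : ∀ a b, F1.Adj a b → a ∉ Lo → b ∉ Lo → dg F1 a + dg F1 b ≤ t)
    (ht : 3 * Lo.card + 2 * κ ≤ t) :
    ∃ mm : ℕ → V → V, Col F1 t mm ∧ ∀ v, ∀ ℓ ∈ K v, mm ℓ v = v := by
  have hb : Col (⊥ : SimpleGraph V) t (fun _ => id) := by
    refine ⟨fun _ _ _ => rfl, fun _ _ v hv' => absurd rfl hv',
      fun _ _ _ _ _ v hv' => absurd rfl hv', ?_⟩
    intro a b h
    exact absurd h (by simp)
  have key : ∀ S : Finset V, S ⊆ Lo → ∃ mm : ℕ → V → V, Col (halG F1 Lo S) t mm ∧
      ∀ v, ∀ ℓ ∈ K v, mm ℓ v = v := by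
    intro S
    induction S using Finset.induction_on with
    | empty =>
      intro _
      refine extp ⊥ (halG F1 Lo ∅) bot_le t _ K (fun _ _ _ => rfl) hb ?_
      have h1 : ∀ v, dg (halG F1 Lo ∅) v ≤ Lo.card := by
        intro v
        unfold dg
        apply Finset.card_le_card
        intro u hu
        rw [Finset.mem_filter] at hu
        obtain ⟨_, _, h | h | h⟩ := hu
        · exact h.2
        · exact absurd h.1 (Finset.notMem_empty _)
        · exact absurd h.1 (Finset.notMem_empty _)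
      intro a b hab _
      have h2 := h1 a
      have h3 := h1 b
      obtain ⟨_, h | h | h⟩ := hab
      · have h4 := hκ a h.1
        have h5 := hκ b h.2
        omega
      · exact absurd h.1 (Finset.notMem_empty _)
      · exact absurd h.1 (Finset.notMem_empty _)
    | insert w S hwS ih =>
      intro hS
      exact halGp_step F1 Lo t κ K hK1 hK2 hκ hw ht S w hwS hS
        (ih (fun x hx => hS (Finset.mem_insert_of_mem hx)))
  obtain ⟨mm, hc, hK⟩ := key Lo (Finset.Subset.refl Lo)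
  refine extp (halG F1 Lo Lo) F1 ?_ t mm K hK hc ?_
  · intro a b h
    exact h.1
  · intro a b hab hn
    have ha : a ∉ Lo := by
      intro ha
      apply hn
      refine ⟨hab, ?_⟩
      by_cases hb : b ∈ Lo
      · exact Or.inl ⟨ha, hb⟩
      · exact Or.inr (Or.inl ⟨ha, hb⟩)
    have hb : b ∉ Lo := by
      intro hb
      apply hn
      exact ⟨hab, Or.inr (Or.inr ⟨hb, ha⟩)⟩
    rw [hK2 a ha, hK2 b hb]
    exact hv a b hab ha hb

end Pool.Agent.H2.FC
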