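import Mathlib
import Pool.Agent.H71.TD.Ifc
import Pool.Agent.H2.FC.Rb
import Pool.Agent.H2.FP.BlkM
import Pool.Agent.H2.FP.HalP

/-!
RBP: the block of the remaining labels; every exceptional vertex `w` misses `s` labels `Hs w`, and the sets `Hs w` are disjoint. Compare `FC/Rb.lean`.
-/

set_option autoImplicit false

namespace Pool.Agent.H2.FC

open Finset Classical
open Pool.Agent.H71.DN Pool.Agent.H71.DC Pool.Agent.H71.TD Pool.Agent.H2.NE

/-- `H` with one more vertex, joined by `s` edges with every vertex of `Lo`. -/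
noncomputable def rbM {V : Type} (H : SimpleGraph V) (Lo : Finset V) (s : ℕ) :
    Option V → Option V → ℕ
  | some a, some b => if H.Adj a b then 1 else 0
  | none, some w => if w ∈ Lo then s else 0
  | some w, none => if w ∈ Lo then s else 0
  | none, none => 0

theorem rbM_dg {V : Type} [Fintype V] (H : SimpleGraph V) (Lo : Finset V) (s : ℕ) (v : V)
    (hv : v ∉ Lo) : dM (rbM H Lo s) (some v) = dg H v := by
  unfold dM dg
  rw [Finset.sum_filter, Fintype.sum_option, Finset.card_filter]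
  have h1 : rbM H Lo s (some v) none = 0 := by
    show (if v ∈ Lo then s else 0) = 0
    rw [if_neg hv]
  rw [h1, ite_self, zero_add]
  refine Finset.sum_congr rfl fun u _ => ?_
  by_cases h : u = v
  · rw [if_neg (by rw [h]; simp), if_neg (by rw [h]; exact H.irrefl)]
  · rw [if_pos (fun h' => h (Option.some_injective _ h'))]
    rfl

theorem rbM_f (N : ℕ) (q : ℕ → Prop) {_ : DecidablePred q} (S : Finset ℕ)
    (h : ∀ ℓ, (ℓ < N ∧ q ℓ) ↔ ℓ ∈ S) : ((range N).filter q).card = S.card := by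
  congr 1
  ext ℓ
  rw [mem_filter, mem_range]
  exact h ℓ

/-- The colouring of the multigraph from a colouring of `H` that avoids `K w` at `w`. -/
theorem rbM_start {V : Type} [Fintype V] (H : SimpleGraph V) (Lo : Finset V) (s N : ℕ)
    (K : V → Finset ℕ) (hK1 : ∀ w, ∀ ℓ ∈ K w, ℓ < N) (hK2 : ∀ v, v ∉ Lo → K v = ∅)
    (hK3 : ∀ w ∈ Lo, (K w).card = s) (hK4 : ∀ w w' ℓ, ℓ ∈ K w → ℓ ∈ K w' → w = w')
    (mm : ℕ → V → V) (hc : Col H N mm) (hK : ∀ v, ∀ ℓ ∈ K v, mm ℓ v = v) :
    ∃ mm' : ℕ → Option V → Option V, MCol (rbM H Lo s) N mm' := by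
  have hex : ∀ ℓ, ∃ z : Option V, (∀ w, ℓ ∈ K w → z = some w) ∧ ∀ w, z = some w → ℓ ∈ K w := by
    intro ℓ
    by_cases h : ∃ w, ℓ ∈ K w
    · obtain ⟨w, hw⟩ := h
      refine ⟨some w, fun w' hw' => by rw [hK4 w w' ℓ hw hw'], fun w' hw' => ?_⟩
      rw [← Option.some_injective _ hw']
      exact hw
    · push Not at h
      exact ⟨none, fun w hw => absurd hw (h w), fun w hw => by cases hw⟩
  choose z hz1 hz2 using hex
  obtain ⟨mm', hn, h1, h2⟩ : ∃ mm' : ℕ → Option V → Option V, (∀ ℓ, mm' ℓ none = z ℓ) ∧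
      (∀ ℓ v, ℓ ∈ K v → mm' ℓ (some v) = none) ∧
      ∀ ℓ v, ℓ ∉ K v → mm' ℓ (some v) = some (mm ℓ v) := by
    refine ⟨fun ℓ x => x.elim (z ℓ) (fun v => if ℓ ∈ K v then none else some (mm ℓ v)),
      fun ℓ => rfl, fun ℓ v h => ?_, fun ℓ v h => ?_⟩
    · show (if ℓ ∈ K v then none else some (mm ℓ v)) = none
      rw [if_pos h]
    · show (if ℓ ∈ K v then none else some (mm ℓ v)) = some (mm ℓ v)
      rw [if_neg h]
  refine ⟨mm', ?_, ?_⟩
  · intro ℓ hℓ x
    rcases x with _ | v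
    · rw [hn]
      rcases h : z ℓ with _ | w
      · rw [hn, h]
      · exact h1 ℓ w (hz2 ℓ w h)
    · by_cases h : ℓ ∈ K v
      · rw [h1 ℓ v h, hn]
        exact hz1 ℓ v h
      · rw [h2 ℓ v h, h2 ℓ (mm ℓ v), hc.inv ℓ hℓ]
        intro h3
        have h4 := hK _ _ h3
        rw [hc.inv ℓ hℓ] at h4
        rw [← h4] at h3
        exact h h3
  · intro x y hxy
    rcases x with _ | a
    · rcases y with _ | w
      · exact absurd rfl hxy
      · show _ = if w ∈ Lo then s else 0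
        refine (rbM_f N _ (K w) (fun ℓ => ?_)).trans ?_
        · rw [hn]
          constructor
          · rintro ⟨_, h⟩
            exact hz2 ℓ w h
          · intro h
            exact ⟨hK1 w ℓ h, hz1 ℓ w h⟩
        by_cases hw : w ∈ Lo
        · rw [if_pos hw, hK3 w hw]
        · rw [if_neg hw, hK2 w hw, card_empty]
    · rcases y with _ | b
      · show _ = if a ∈ Lo then s else 0
        refine (rbM_f N _ (K a) (fun ℓ => ?_)).trans ?_
        · constructor
          · rintro ⟨_, h⟩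
            by_contra h4
            rw [h2 ℓ a h4] at h
            cases h
          · intro h
            exact ⟨hK1 a ℓ h, h1 ℓ a h⟩
        by_cases hw : a ∈ Lo
        · rw [if_pos hw, hK3 a hw]
        · rw [if_neg hw, hK2 a hw, card_empty]
      · show _ = if H.Adj a b then 1 else 0
        have hab : a ≠ b := fun h => hxy (by rw [h])
        refine (rbM_f N _ ((range N).filter fun ℓ => mm ℓ a = b) (fun ℓ => ?_)).trans ?_
        · rw [mem_filter, mem_range]
          by_cases h : ℓ ∈ K a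
          · rw [h1 ℓ a h, hK a ℓ h]
            constructor
            · rintro ⟨_, h4⟩
              cases h4
            · rintro ⟨_, h4⟩
              exact absurd h4 hab
          · rw [h2 ℓ a h]
            constructor
            · rintro ⟨h4, h5⟩
              exact ⟨h4, Option.some_injective _ h5⟩
            · rintro ⟨h4, h5⟩
              exact ⟨h4, by rw [h5]⟩
        by_cases hadj : H.Adj a b
        · rw [if_pos hadj, Finset.card_eq_one]
          obtain ⟨ℓ, hℓ, h⟩ := hc.cov a b hadj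
          refine ⟨ℓ, ?_⟩
          ext i
          rw [mem_filter, mem_range, mem_singleton]
          constructor
          · rintro ⟨hi, hi2⟩
            by_contra hne
            exact hc.dis i hi ℓ hℓ hne a (by rw [hi2]; exact hab.symm) (by rw [hi2, h])
          · rintro rfl
            exact ⟨hℓ, h⟩
        · rw [if_neg hadj, Finset.card_eq_zero, Finset.filter_eq_empty_iff]
          intro ℓ hℓ h
          apply hadj
          have h4 := hc.adj ℓ (mem_range.1 hℓ) a (by rw [h]; exact hab.symm)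
          rw [h] at h4
          exact h4

theorem rbp {V : Type} [Fintype V] (H : SimpleGraph V) (nd : V → ℕ) (k s N : ℕ)
    (hnd : ∀ v, nd v ≤ 2 * k) (h1 : ∀ w ∈ pt nd (2 * k), dg H w + s = N)
    (h2 : ∀ a b, H.Adj a b → a ∉ pt nd (2 * k) → b ∉ pt nd (2 * k) → dg H a + dg H b ≤ N)
    (h3 : 3 * (pt nd (2 * k)).card + 2 * s ≤ N) (h4 : (pt nd (2 * k)).card * s ≤ N) :
    ∃ (mm : ℕ → V → V) (Hs : V → Finset ℕ), Col H N mm ∧
      (∀ w ∈ pt nd (2 * k), Hs w ⊆ range N ∧ (Hs w).card = s ∧ ∀ ℓ ∈ Hs w, mm ℓ w = w) ∧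
      (∀ w ∈ pt nd (2 * k), ∀ w' ∈ pt nd (2 * k), w ≠ w' → Disjoint (Hs w) (Hs w')) ∧
      (∀ ℓ < N, N * (univ.filter fun v => nd v < 2 * k ∧ mm ℓ v ≠ v).card ≤
        ∑ v ∈ univ.filter (fun v => nd v < 2 * k), dg H v + 4 * k * N) ∧
      ∀ i < k, 30 * |∑ v ∈ pt nd (2 * i), (dg H v : ℤ) -
          ∑ v ∈ pt nd (2 * i + 1), (dg H v : ℤ)| ≤ N →
        (∀ ℓ < N, |uu nd (mm ℓ) i| ≤ 3) ∧
          10 * ∑ ℓ ∈ range N, max 0 (-uu nd (mm ℓ) i) ≤ 7 * N := by
  obtain ⟨Lo, hLo⟩ : ∃ Lo : Finset V, Lo = pt nd (2 * k) := ⟨_, rfl⟩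
  have hmem : ∀ v, v ∈ Lo ↔ nd v = 2 * k := by
    intro v
    rw [hLo]
    unfold pt
    simp
  rw [← hLo] at h1 h2 h3 h4
  -- the first labels
  obtain ⟨K, hK1, hK2, hK3, hK4⟩ : ∃ K : V → Finset ℕ, (∀ w, ∀ ℓ ∈ K w, ℓ < N) ∧
      (∀ v, v ∉ Lo → K v = ∅) ∧ (∀ w ∈ Lo, (K w).card = s) ∧
      (∀ w w' ℓ, ℓ ∈ K w → ℓ ∈ K w' → w = w') := by
    obtain ⟨e, he⟩ : ∃ e : V → ℕ, ∀ v, e v = if h : v ∈ Lo then (Lo.equivFin ⟨v, h⟩ : ℕ) else 0 :=
      ⟨_, fun _ => rfl⟩
    have he1 : ∀ v ∈ Lo, e v < Lo.card := by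
      intro v hv
      rw [he, dif_pos hv]
      exact (Lo.equivFin ⟨v, hv⟩).2
    have he2 : ∀ v ∈ Lo, ∀ w ∈ Lo, e v = e w → v = w := by
      intro v hv w hw h
      rw [he, he, dif_pos hv, dif_pos hw] at h
      have h5 := Lo.equivFin.injective (Fin.ext h)
      exact congrArg Subtype.val h5
    refine ⟨fun v => if v ∈ Lo then Ico (s * e v) (s * e v + s) else ∅, ?_, ?_, ?_, ?_⟩
    · intro w ℓ hℓ
      by_cases hw : w ∈ Lo
      · simp only [if_pos hw, mem_Ico] at hℓ
        have h5 := he1 w hw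
        have h6 : s * (e w + 1) ≤ s * Lo.card := Nat.mul_le_mul_left s h5
        have h7 : s * (e w + 1) = s * e w + s := by ring
        have h8 : s * Lo.card = Lo.card * s := Nat.mul_comm _ _
        omega
      · simp only [if_neg hw, Finset.notMem_empty] at hℓ
    · intro v hv
      simp only [if_neg hv]
    · intro w hw
      simp only [if_pos hw, Nat.card_Ico]
      omega
    · intro w w' ℓ h5 h6
      by_cases hw : w ∈ Lo
      · by_cases hw' : w' ∈ Lo
        · simp only [if_pos hw, mem_Ico] at h5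
          simp only [if_pos hw', mem_Ico] at h6
          refine he2 w hw w' hw' ?_
          rcases Nat.lt_trichotomy (e w) (e w') with h | h | h
          · exfalso
            have h7 : s * (e w + 1) ≤ s * e w' := Nat.mul_le_mul_left s h
            have h8 : s * (e w + 1) = s * e w + s := by ring
            omega
          · exact h
          · exfalso
            have h7 : s * (e w' + 1) ≤ s * e w := Nat.mul_le_mul_left s h
            have h8 : s * (e w' + 1) = s * e w' + s := by ring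
            omega
        · simp only [if_neg hw', Finset.notMem_empty] at h6
      · simp only [if_neg hw, Finset.notMem_empty] at h5
  obtain ⟨mm0, hc0, hK0⟩ := halp H Lo N s K hK1 hK2 hK3 h1 h2 h3
  obtain ⟨mm1, hm1⟩ := rbM_start H Lo s N K hK1 hK2 hK3 hK4 mm0 hc0 hK0
  obtain ⟨nd', hnd'⟩ : ∃ nd' : Option V → ℕ, nd' = fun x => x.elim (2 * k) nd := ⟨_, rfl⟩
  have hn0 : nd' none = 2 * k := by rw [hnd']; rfl
  have hns : ∀ v, nd' (some v) = nd v := by intro v; rw [hnd']; rfl
  obtain ⟨mm', hc, hA, hB⟩ := blkM (rbM H Lo s) nd' k N mm1 hm1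
  obtain ⟨mm, hmm⟩ : ∃ mm : ℕ → V → V, mm = fun ℓ v => (mm' ℓ (some v)).getD v := ⟨_, rfl⟩
  have mS : ∀ ℓ v u, mm' ℓ (some v) = some u → mm ℓ v = u := by
    intro ℓ v u h
    rw [hmm]
    simp only
    rw [h]
    rfl
  have mN : ∀ ℓ v, mm' ℓ (some v) = none → mm ℓ v = v := by
    intro ℓ v h
    rw [hmm]
    simp only
    rw [h]
    rfl
  have hcnt : ∀ x y : Option V, x ≠ y → ∃ S : Finset ℕ, S.card = rbM H Lo s x y ∧
      ∀ ℓ, ℓ ∈ S ↔ (ℓ < N ∧ mm' ℓ x = y) := by
    intro x y hxy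
    refine ⟨_, hc.cnt x y hxy, fun ℓ => ?_⟩
    simp only [mem_filter, mem_range]
  have hcs : ∀ a b, a ≠ b → ∃ S : Finset ℕ, S.card = (if H.Adj a b then 1 else 0) ∧
      ∀ ℓ, ℓ ∈ S ↔ (ℓ < N ∧ mm' ℓ (some a) = some b) := fun a b hab =>
    hcnt (some a) (some b) (fun h => hab (Option.some_injective _ h))
  have hcol : Col H N mm := by
    refine ⟨?_, ?_, ?_, ?_⟩
    · intro ℓ hℓ v
      rcases h : mm' ℓ (some v) with _ | u
      · rw [mN ℓ v h, mN ℓ v h]
      · rw [mS ℓ v u h]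
        have h5 := hc.inv ℓ hℓ (some v)
        rw [h] at h5
        exact mS ℓ u v h5
    · intro ℓ hℓ v hv
      rcases h : mm' ℓ (some v) with _ | u
      · exact absurd (mN ℓ v h) hv
      · rw [mS ℓ v u h] at hv ⊢
        by_contra hn
        obtain ⟨S, h5, h6⟩ := hcs v u (Ne.symm hv)
        rw [if_neg hn, Finset.card_eq_zero] at h5
        have h7 := (h6 ℓ).2 ⟨hℓ, h⟩
        rw [h5] at h7
        exact Finset.notMem_empty _ h7
    · intro i hi j hj hij v hv
      rcases h : mm' i (some v) with _ | u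
      · exact absurd (mN i v h) hv
      · rw [mS i v u h] at hv ⊢
        rcases h7 : mm' j (some v) with _ | u2
        · rw [mN j v h7]
          exact hv
        · rw [mS j v u2 h7]
          intro h8
          rw [← h8] at h7
          obtain ⟨S, h10, h11⟩ := hcs v u (Ne.symm hv)
          have h9 : 2 ≤ S.card := by
            rw [← Finset.card_pair hij]
            refine Finset.card_le_card fun x hx => ?_
            rw [mem_insert, mem_singleton] at hx
            rcases hx with rfl | rfl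
            · exact (h11 _).2 ⟨hi, h⟩
            · exact (h11 _).2 ⟨hj, h7⟩
          rw [h10] at h9
          split_ifs at h9 <;> omega
    · intro a b hab
      obtain ⟨S, h5, h6⟩ := hcs a b hab.ne
      rw [if_pos hab] at h5
      obtain ⟨ℓ, hℓ⟩ := Finset.card_pos.1 (by rw [h5]; exact Nat.one_pos)
      rw [h6] at hℓ
      exact ⟨ℓ, hℓ.1, mS ℓ a b hℓ.2⟩
  -- vertices of the pieces
  have hmove : ∀ ℓ < N, ∀ v, nd v < 2 * k → (mm' ℓ (some v) ≠ some v ↔ mm ℓ v ≠ v) := by
    intro ℓ hℓ v hv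
    rcases h : mm' ℓ (some v) with _ | u
    · exfalso
      obtain ⟨S, h5, h7⟩ := hcnt (some v) none (by simp)
      have h6 : rbM H Lo s (some v) none = 0 := by
        show (if v ∈ Lo then s else 0) = 0
        rw [if_neg]
        rw [hmem]
        omega
      rw [h6, Finset.card_eq_zero] at h5
      have h8 := (h7 ℓ).2 ⟨hℓ, h⟩
      rw [h5] at h8
      exact Finset.notMem_empty _ h8
    · rw [mS ℓ v u h]
      constructor
      · intro h5 h6
        exact h5 (by rw [h6])
      · intro h5 h6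
        exact h5 (Option.some_injective _ h6)
  have hdg : ∀ v, nd v < 2 * k → dM (rbM H Lo s) (some v) = dg H v := by
    intro v hv
    refine rbM_dg H Lo s v ?_
    rw [hmem]
    omega
  have hpc : ∀ ℓ < N, ∀ j < 2 * k, ((pt nd' j).filter fun x => mm' ℓ x ≠ x).card =
      ((pt nd j).filter fun v => mm ℓ v ≠ v).card := by
    intro ℓ hℓ j hj
    unfold pt
    rw [Finset.filter_filter, Finset.filter_filter]
    refine Rb_card _ _ (fun h => ?_) (fun v => ?_)
    · rw [hn0] at h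
      omega
    · rw [hns]
      constructor
      · rintro ⟨h5, h6⟩
        exact ⟨h5, (hmove ℓ hℓ v (by omega)).1 h6⟩
      · rintro ⟨h5, h6⟩
        exact ⟨h5, (hmove ℓ hℓ v (by omega)).2 h6⟩
  have huu : ∀ ℓ < N, ∀ i < k, uu nd' (mm' ℓ) i = uu nd (mm ℓ) i := by
    intro ℓ hℓ i hi
    unfold uu
    have e1 := hpc ℓ hℓ (2 * i) (by omega)
    have e2 := hpc ℓ hℓ (2 * i + 1) (by omega)
    refine congrArg₂ (fun x y : ℕ => (x : ℤ) - y) ?_ ?_
    · convert e1
    · convert e2
  have hsum : ∀ j < 2 * k, ∑ x ∈ pt nd' j, (dM (rbM H Lo s) x : ℤ) =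
      ∑ v ∈ pt nd j, (dg H v : ℤ) := by
    intro j hj
    unfold pt
    refine Rb_sum _ _ (fun h => ?_) (fun v => ?_) _ _ (fun v hv => ?_)
    · rw [hn0] at h
      omega
    · rw [hns]
    · rw [hdg v (by omega)]
  rw [← hLo]
  have hHs : ∀ w, ∃ S : Finset ℕ, S.card = rbM H Lo s none (some w) ∧
      ∀ ℓ, ℓ ∈ S ↔ (ℓ < N ∧ mm' ℓ none = some w) := fun w => hcnt none (some w) (by simp)
  choose Hs hHs1 hHs2 using hHs
  refine ⟨mm, Hs, hcol, ?_, ?_, ?_, ?_⟩
  · intro w hw
    refine ⟨fun ℓ hℓ => mem_range.2 ((hHs2 w ℓ).1 hℓ).1, ?_, ?_⟩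
    · rw [hHs1]
      show (if w ∈ Lo then s else 0) = s
      rw [if_pos hw]
    · intro ℓ hℓ
      rw [hHs2] at hℓ
      refine mN ℓ w ?_
      have h7 := hc.inv ℓ hℓ.1 none
      rw [hℓ.2] at h7
      exact h7
  · intro w hw w' hw' hne
    rw [Finset.disjoint_left]
    intro ℓ h5 h6
    rw [hHs2] at h5 h6
    rw [h5.2] at h6
    exact hne (Option.some_injective _ h6.2)
  · intro ℓ hℓ
    have h5 : N * (univ.filter fun x : Option V => nd' x < 2 * k ∧ mm' ℓ x ≠ x).card ≤
        ∑ x ∈ univ.filter (fun x : Option V => nd' x < 2 * k), dM (rbM H Lo s) x +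
          4 * k * N := by
      convert hA ℓ hℓ
    rw [Rb_card (fun x => nd' x < 2 * k ∧ mm' ℓ x ≠ x) (fun v => nd v < 2 * k ∧ mm ℓ v ≠ v)
      (fun h => by rw [hn0] at h; omega) (fun v => by
        rw [hns]
        constructor
        · rintro ⟨h6, h7⟩
          exact ⟨h6, (hmove ℓ hℓ v h6).1 h7⟩
        · rintro ⟨h6, h7⟩
          exact ⟨h6, (hmove ℓ hℓ v h6).2 h7⟩)] at h5
    rw [Rb_sum (fun x => nd' x < 2 * k) (fun v => nd v < 2 * k)
      (fun h => by rw [hn0] at h; omega) (fun v => by rw [hns]) _ (fun v => dg H v)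
      (fun v hv => hdg v hv)] at h5
    exact h5
  · intro i hi h
    have h5 := hB i hi (by
      rw [hsum (2 * i) (by omega), hsum (2 * i + 1) (by omega)]
      exact h)
    refine ⟨fun ℓ hℓ => ?_, ?_⟩
    · rw [← huu ℓ hℓ i hi]
      exact h5.1 ℓ hℓ
    · have e : ∑ ℓ ∈ range N, max 0 (-uu nd (mm ℓ) i) =
          ∑ ℓ ∈ range N, max 0 (-uu nd' (mm' ℓ) i) :=
        Finset.sum_congr rfl fun ℓ hℓ => by rw [huu ℓ (Finset.mem_range.1 hℓ) i hi]
      rw [e]
      exact h5.2

end Pool.Agent.H2.FC
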