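import Mathlib
import Pool.Agent.H90.TDP.Ifp
import Pool.Agent.H2.FP.AsmP

/-!
FCP: the colouring of the defect edges with `Δ + 2 p` labels (`p` fixed). Compare `H71/TD/Fc.lean`.
-/

set_option autoImplicit false

namespace Pool.Agent.H90.TDP

open Finset Classical
open Pool.Agent.H71.DN Pool.Agent.H71.DX Pool.Agent.H71.DR Pool.Agent.H71.HL Pool.Agent.H71.DC
open Pool.Agent.H71.TD

theorem fcp (c : ℝ) (g p : ℕ) (hc : 0 < c) (hc1 : c ≤ 1) (hg : 3 ≤ g) (hp : 1 ≤ p) :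
    ∃ f1 ξ0 : ℝ, 0 < f1 ∧ 0 < ξ0 ∧ ∀ δ : ℝ, 0 < δ → ∃ (f0 : ℝ) (n0 : ℕ), 0 < f0 ∧
      ∀ (V : Type) [Fintype V] (G : SimpleGraph V) (Δ k KE KB : ℕ) (x ξ ζ f η : ℝ)
        (ty : ℕ → Prop) (nd qt : V → ℕ) (sf : ℕ → Finset V), n0 ≤ Fintype.card V →
        c * Fintype.card V ≤ Δ → 0 ≤ ξ → ξ ≤ ξ0 → 0 ≤ f → f ≤ f0 →
        Str G Δ c x ξ ζ f k ty nd sf → Spl G k ty nd qt η KE KB f1 →
        ∃ (φ : ℕ → V → V) (Hs : V → Finset ℕ),
          FcInt G Δ p k ty nd qt ((Δ + 2 * p - 2) / (12 * g)) δ φ Hs := by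
  have hg' : (3 : ℝ) ≤ g := by exact_mod_cast hg
  have hp' : (1 : ℝ) ≤ p := by exact_mod_cast hp
  have hg0 : (0 : ℝ) < g := by linarith
  obtain ⟨s, hs⟩ : ∃ s : ℝ, s = c / (24 * g) := ⟨_, rfl⟩
  have hs0 : 0 < s := by rw [hs]; positivity
  have hsg : s * (24 * g) = c := by rw [hs]; field_simp
  have hs1 : 48 * s ≤ c := by nlinarith
  refine ⟨s * c / 2880, s / 2, by positivity, by positivity, fun δ hδ => ?_⟩
  obtain ⟨n1, hn1⟩ := exists_nat_ge (24 * g / c)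
  obtain ⟨n2, hn2⟩ := exists_nat_ge (3360 / (c * s))
  obtain ⟨n3, hn3⟩ := exists_nat_ge (16 / (c * δ))
  obtain ⟨n4, hn4⟩ := exists_nat_ge (4 * p / s)
  refine ⟨min (min (s * c / 5760) (δ * s / 2)) (s / (2 * p)), n1 + n2 + n3 + n4 + 1,
    by positivity, ?_⟩
  intro V _ G Δ k KE KB x ξ ζ f η ty nd qt sf hn hcΔ hξ0 hξ hf0 hf hS hP
  have hfa : f ≤ s * c / 5760 := le_trans hf ((min_le_left _ _).trans (min_le_left _ _))
  have hfb : f ≤ δ * s / 2 := le_trans hf ((min_le_left _ _).trans (min_le_right _ _))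
  have hfc : f ≤ s / (2 * p) := le_trans hf (min_le_right _ _)
  obtain ⟨n, hnd⟩ : ∃ n : ℝ, n = Fintype.card V := ⟨_, rfl⟩
  have hnR : ((n1 + n2 + n3 + n4 + 1 : ℕ) : ℝ) ≤ n := by rw [hnd]; exact_mod_cast hn
  push_cast at hnR
  have p1 : (0 : ℝ) ≤ n1 := Nat.cast_nonneg _
  have p2 : (0 : ℝ) ≤ n2 := Nat.cast_nonneg _
  have p3 : (0 : ℝ) ≤ n3 := Nat.cast_nonneg _
  have p4 : (0 : ℝ) ≤ n4 := Nat.cast_nonneg _
  have hnpos : 0 < n := by linarith
  rw [← hnd] at hcΔ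
  have q1 : 24 * g ≤ c * n := by
    have h1 : 24 * (g : ℝ) / c ≤ n := by linarith
    rwa [div_le_iff₀' hc] at h1
  have q2 : 3360 ≤ c * s * n := by
    have h1 : 3360 / (c * s) ≤ n := by linarith
    rwa [div_le_iff₀' (by positivity)] at h1
  have q3 : 16 ≤ c * δ * n := by
    have h1 : 16 / (c * δ) ≤ n := by linarith
    rwa [div_le_iff₀' (by positivity)] at h1
  have q4 : 4 * p ≤ s * n := by
    have h1 : 4 * (p : ℝ) / s ≤ n := by linarith
    rwa [div_le_iff₀' hs0] at h1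
  -- the number of labels
  obtain ⟨t, ht⟩ : ∃ t : ℕ, t = (Δ + 2 * p - 2) / (12 * g) := ⟨_, rfl⟩
  have ht1 : 12 * g * t ≤ Δ + 2 * p - 2 := by rw [ht]; exact Nat.mul_div_le _ _
  have ht2 : Δ < 12 * g * (t + 1) := by
    have h1 : Δ + 2 * p - 2 < 12 * g * (t + 1) := by
      rw [ht]
      exact Nat.lt_mul_div_succ _ (by omega)
    omega
  have ht2' : (Δ : ℝ) < 12 * g * (t + 1) := by exact_mod_cast ht2
  have hts : s * n ≤ t := by
    have h1 : s * n * (24 * g) ≤ t * (24 * g) := by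
      have h2 : s * n * (24 * g) = c * n := by rw [← hsg]; ring
      rw [h2]
      nlinarith
    exact le_of_mul_le_mul_right h1 (by positivity)
  have ht0' : (0 : ℝ) < t := lt_of_lt_of_le (by positivity) hts
  have ht0 : 0 < t := by exact_mod_cast ht0'
  have h4p : 4 * p ≤ Δ := by
    have h1 : s * n ≤ c * n := mul_le_mul_of_nonneg_right (by linarith) hnpos.le
    have h2 : (4 : ℝ) * p ≤ Δ := by linarith
    exact_mod_cast h2
  have h24 : 24 * t ≤ Δ := by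
    have h1 : 12 * 3 * t ≤ 12 * g * t := Nat.mul_le_mul_right t (Nat.mul_le_mul_left 12 hg)
    omega
  have h2pt : 2 * p ≤ t := by
    have h1 : (2 : ℝ) * p ≤ t := by linarith
    exact_mod_cast h1
  have h24' : (24 : ℝ) * t ≤ Δ := by exact_mod_cast h24
  have hkc : (k : ℝ) * c ≤ 2 := hS.kc
  have hk0 : (0 : ℝ) ≤ k := Nat.cast_nonneg _
  have hlo : ((pt nd (2 * k)).card : ℝ) ≤ f * n := by rw [hnd]; exact hS.lo
  have hlo0 : (0 : ℝ) ≤ ((pt nd (2 * k)).card : ℝ) := Nat.cast_nonneg _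
  obtain ⟨B, hB⟩ : ∃ B : ℕ, B = ⌈s * c / 2880 * n⌉₊ := ⟨_, rfl⟩
  have hB1 : s * c / 2880 * n ≤ B := by rw [hB]; exact Nat.le_ceil _
  have hB2 : (B : ℝ) ≤ s * c / 2880 * n + 1 := by
    rw [hB]
    exact (Nat.ceil_lt_add_one (by positivity)).le
  have hsn : 3360 ≤ s * n := by
    have h1 : c * (s * n) ≤ 1 * (s * n) := mul_le_mul_of_nonneg_right hc1 (by positivity)
    nlinarith
  have hscn : s * c * n ≤ s * n := by
    have h1 : s * c ≤ s := by nlinarith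
    exact mul_le_mul_of_nonneg_right h1 hnpos.le
  have hfn : f * n ≤ s * c / 5760 * n := mul_le_mul_of_nonneg_right hfa hnpos.le
  rw [← ht]
  refine Pool.Agent.H2.FC.asmp G Δ p k KE KB t B c x ξ ζ f η (s * c / 2880) δ ty nd qt
    sf hS hP ht0 h24 ?_ h2pt ?_ ?_ ?_ ?_ ?_ ?_ ?_
  · have h1 : (3 : ℝ) * ((pt nd (2 * k)).card : ℝ) ≤ t := by linarith
    exact_mod_cast h1
  · have h1 : ((pt nd (2 * k)).card : ℝ) * (2 * p) ≤ s * n := by
      have h2 : f * n ≤ s / (2 * p) * n := mul_le_mul_of_nonneg_right hfc hnpos.le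
      have h3 : ((pt nd (2 * k)).card : ℝ) * (2 * p) ≤ s / (2 * p) * n * (2 * p) :=
        mul_le_mul_of_nonneg_right (le_trans hlo h2) (by positivity)
      have h4 : s / (2 * p) * n * (2 * p) = s * n := by field_simp
      linarith
    have h2 : (((pt nd (2 * k)).card * (2 * p) : ℕ) : ℝ) ≤ t := by
      push_cast
      linarith
    have h3 : (pt nd (2 * k)).card * (2 * p) ≤ t := by exact_mod_cast h2
    omega
  · rw [← hnd]
    have h1 : ξ * n ≤ s / 2 * n := mul_le_mul_of_nonneg_right hξ hnpos.le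
    linarith
  · rw [← hnd]
    exact hB1
  · have h1 : (2 : ℝ) * B ≤ Δ := by linarith
    exact_mod_cast h1
  · -- the errors, multiplied by `c`
    push_cast
    set l := ((pt nd (2 * k)).card : ℝ) with hl
    have h1 : c * (120 * ((2 * (2 * (k : ℝ)) + 4) * l + 2 * B + 2 * k * (2 + B))) ≤ c * t := by
      have e1 : c * k * l ≤ 2 * l := by
        have : c * k ≤ 2 := by linarith [mul_comm c (k : ℝ)]
        exact mul_le_mul_of_nonneg_right this hlo0
      have e2 : c * l ≤ 1 * l := mul_le_mul_of_nonneg_right hc1 hlo0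
      have hB0 : (0 : ℝ) ≤ B := Nat.cast_nonneg _
      have e3 : c * k * B ≤ 2 * B := by
        have : c * k ≤ 2 := by linarith [mul_comm c (k : ℝ)]
        exact mul_le_mul_of_nonneg_right this hB0
      have e4 : c * B ≤ 1 * B := mul_le_mul_of_nonneg_right hc1 hB0
      have e5 : c * k ≤ 2 := by linarith [mul_comm c (k : ℝ)]
      have e6 : c * (s * n) ≤ c * t := mul_le_mul_of_nonneg_left hts hc.le
      nlinarith
    exact le_of_mul_le_mul_left h1 hc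
  · rw [← hnd]
    have h1 : c * (8 * (k : ℝ)) ≤ c * (δ * n) := by nlinarith
    exact le_of_mul_le_mul_left h1 hc
  · rw [← hnd]
    have h1 : f * n ^ 2 ≤ δ * s / 2 * n ^ 2 := mul_le_mul_of_nonneg_right hfb (by positivity)
    have h2 : δ * n * (s * n) ≤ δ * n * t := mul_le_mul_of_nonneg_left hts (by positivity)
    nlinarith

end Pool.Agent.H90.TDP
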