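import Mathlib
import Pool.Agent.H33.TDP.St
import Pool.Agent.H90.TDP.Rel
import Pool.Agent.H2.FP.FcP

/-!
FCST: the colouring of the defect edges with `Δ + 2 p` labels, in the final order of the labels.
-/

set_option autoImplicit false

namespace Pool.Agent.H90.TDP

open Finset Classical
open Pool.Agent.H71.DN Pool.Agent.H71.DX Pool.Agent.H71.DR Pool.Agent.H71.HL Pool.Agent.H71.DC
open Pool.Agent.H71.TD

theorem fcstp (c : ℝ) (g p : ℕ) (hc : 0 < c) (hc1 : c ≤ 1) (hg : 3 ≤ g) (hp : 1 ≤ p) :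
    Pool.Agent.H33.TDP.FcStP c g p := by
  have hp' : (1 : ℝ) ≤ p := by exact_mod_cast hp
  obtain ⟨f1, ξ0, hf1, hξ0, hfc⟩ := fcp c g p hc hc1 hg hp
  refine ⟨f1, ξ0, hf1, hξ0, fun δ hδ => ?_⟩
  obtain ⟨f0, n0, hf0, hfc⟩ := hfc δ hδ
  obtain ⟨n1, hn1⟩ := exists_nat_ge (32 * p / c)
  refine ⟨min f0 (c / (16 * p)), n0 + n1, by positivity, ?_⟩
  intro V _ G Δ k KE KB x ξ ζ f η ty nd qt sf hn hcΔ hx0 hx hf hff hS hP
  obtain ⟨φ, Hs, hφ⟩ := hfc V G Δ k KE KB x ξ ζ f η ty nd qt sf (by omega) hcΔ hx0 hx hf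
    (le_trans hff (min_le_left _ _)) hS hP
  have hnR : ((n0 + n1 : ℕ) : ℝ) ≤ Fintype.card V := by exact_mod_cast hn
  push_cast at hnR
  have h0 : (0 : ℝ) ≤ n0 := Nat.cast_nonneg _
  have h00 : (0 : ℝ) ≤ n1 := Nat.cast_nonneg _
  have h32 : 32 * (p : ℝ) ≤ c * Fintype.card V := by
    have h1 : 32 * (p : ℝ) / c ≤ Fintype.card V := by linarith
    rwa [div_le_iff₀' hc] at h1
  have h32' : 32 * p ≤ Δ := by
    have h1 : (32 : ℝ) * p ≤ Δ := by linarith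
    exact_mod_cast h1
  have hlo : 4 * ((4 * p) * (pt nd (2 * k)).card) ≤ Δ := by
    have h1 : ((pt nd (2 * k)).card : ℝ) ≤ c / (16 * p) * Fintype.card V :=
      le_trans hS.lo (mul_le_mul_of_nonneg_right (le_trans hff (min_le_right _ _))
        (Nat.cast_nonneg _))
    have h2 : 16 * (p : ℝ) * ((pt nd (2 * k)).card : ℝ) ≤
        16 * p * (c / (16 * p) * Fintype.card V) := mul_le_mul_of_nonneg_left h1 (by positivity)
    have h3 : 16 * (p : ℝ) * (c / (16 * p) * Fintype.card V) = c * Fintype.card V := by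
      field_simp
    have h4 : ((4 * ((4 * p) * (pt nd (2 * k)).card) : ℕ) : ℝ) ≤ Δ := by
      push_cast
      linarith
    exact_mod_cast h4
  have ht : 12 * g * ((Δ + 2 * p - 2) / (12 * g)) ≤ Δ + 2 * p - 2 := Nat.mul_div_le _ _
  have ht2 : 12 * 3 * ((Δ + 2 * p - 2) / (12 * g)) ≤ 12 * g * ((Δ + 2 * p - 2) / (12 * g)) :=
    Nat.mul_le_mul_right _ (Nat.mul_le_mul_left 12 hg)
  have h5 : (4 * p - 2) * (pt nd (2 * k)).card ≤ (4 * p) * (pt nd (2 * k)).card :=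
    Nat.mul_le_mul_right _ (Nat.sub_le _ _)
  exact rel G Δ p k ty nd qt _ δ φ Hs hp (by omega) hφ

end Pool.Agent.H90.TDP
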